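import Pool.Agent.H40.EGD.Targets

/-!
# The indicator function is an invariant function
-/

set_option autoImplicit false

namespace Pool.Agent.H60.EGD

open MeasureTheory Set Metric Filter Topology
open Pool.Agent.H93.BL
open Pool.Agent.H93.EG (InvG)
open Pool.Agent.H40.EGD

theorem io_iff_step {ι : Type} (P : Polygon ι) (X : ι → Set (ℝ × ℝ)) (hIOS : T_IOS)
    (z : ι × ℝ × ℝ) : Io P X z ↔ ∃ z', P.Step z z' ∧ Io P X z' := by
  constructor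
  · intro h
    obtain ⟨n, hn, z', h1, -⟩ := h 1
    obtain ⟨m, rfl⟩ : ∃ m, n = m + 1 := ⟨n - 1, by omega⟩
    obtain ⟨y, hy, -⟩ := h1
    exact ⟨y, hy, (hIOS ι P X z y hy).1 h⟩
  · rintro ⟨z', h1, h2⟩
    exact (hIOS ι P X z z' h1).2 h2

theorem FXG (hNXU : T_NXU) (hIOS : T_IOS) (hB2 : T_B2) : T_FXG := by
  classical
  intro ι P X hm
  refine ⟨hm, ?_, ?_, ?_, ?_⟩
  · intro y w
    unfold FX
    split_ifs <;> norm_num
  · intro y w hy
    unfold FX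
    rw [if_neg (fun h => hy h.1)]
  · intro y w t hw ht hr
    have h0 : y ∈ P.Ω := by
      have := hr 0 ⟨le_rfl, ht⟩
      simpa using this
    have h1 : y + (t : ℂ) * w ∈ P.Ω := hr t ⟨ht, le_rfl⟩
    have h2 : (y + (t : ℂ) * w ∈ P.Ω ∧ ‖w‖ = 1 ∧ ∃ z, Nx P (y + (t : ℂ) * w) w z ∧ Io P X z) ↔
        (y ∈ P.Ω ∧ ‖w‖ = 1 ∧ ∃ z, Nx P y w z ∧ Io P X z) := by
      constructor
      · rintro ⟨-, -, z, h3, h4⟩
        exact ⟨h0, hw, z, ((hNXU ι P y w z z hw).2.1 t ht hr).1 h3, h4⟩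
      · rintro ⟨-, -, z, h3, h4⟩
        exact ⟨h1, hw, z, ((hNXU ι P y w z z hw).2.1 t ht hr).2 h3, h4⟩
    unfold FX
    by_cases h : y ∈ P.Ω ∧ ‖w‖ = 1 ∧ ∃ z, Nx P y w z ∧ Io P X z
    · rw [if_pos h, if_pos (h2.2 h)]
    · rw [if_neg h, if_neg (fun h' => h (h2.1 h'))]
  · intro j y w t s hw ht hs hip hr hside hr2
    have h0 : y ∈ P.Ω := by
      have := hr 0 ⟨le_rfl, ht⟩
      simpa using this
    have hvn : ‖P.refl j w‖ = 1 := by rw [P.norm_refl, hw]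
    have hvip : 0 < ip (P.refl j w) (P.n j) := by
      rw [P.ip_refl_n]
      linarith
    obtain ⟨s1, φ1, h1, h2, h3⟩ := hB2 ι P j (y + (t : ℂ) * w) (P.refl j w)
      ⟨hside, hvn, hvip⟩
    have hN1 : Nx P y w (j, s1, φ1) := by
      refine ⟨h1, ⟨t, ht, h2, fun r hr' => hr r ⟨hr'.1.le, hr'.2⟩⟩, h3⟩
    have h4 : y + (t : ℂ) * w + (s : ℂ) * P.refl j w ∈ P.Ω := hr2 s ⟨hs, le_rfl⟩
    have h5 : (y ∈ P.Ω ∧ ‖w‖ = 1 ∧ ∃ z, Nx P y w z ∧ Io P X z) ↔ Io P X (j, s1, φ1) := by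
      constructor
      · rintro ⟨-, -, z, h6, h7⟩
        rw [(hNXU ι P y w (j, s1, φ1) z hw).1 hN1 h6]
        exact h7
      · intro h
        exact ⟨h0, hw, _, hN1, h⟩
    have h6 : ∀ z', Nx P (y + (t : ℂ) * w + (s : ℂ) * P.refl j w) (P.refl j w) z' ↔
        P.Step (j, s1, φ1) z' := by
      intro z'
      have h7 := (hNXU ι P y w (j, s1, φ1) z' hw).2.2 s hs h1 (by
        rw [h2, h3]
        exact hr2)
      rw [h2, h3] at h7
      exact h7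
    have h7 : (y + (t : ℂ) * w + (s : ℂ) * P.refl j w ∈ P.Ω ∧ ‖P.refl j w‖ = 1 ∧
        ∃ z, Nx P (y + (t : ℂ) * w + (s : ℂ) * P.refl j w) (P.refl j w) z ∧ Io P X z) ↔
        Io P X (j, s1, φ1) := by
      rw [io_iff_step P X hIOS]
      constructor
      · rintro ⟨-, -, z, h8, h9⟩
        exact ⟨z, (h6 z).1 h8, h9⟩
      · rintro ⟨z, h8, h9⟩
        exact ⟨h4, hvn, z, (h6 z).2 h8, h9⟩
    unfold FX
    by_cases h : Io P X (j, s1, φ1)
    · rw [if_pos (h5.2 h), if_pos (h7.2 h)]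
    · rw [if_neg (fun h' => h (h5.1 h')), if_neg (fun h' => h (h7.1 h'))]

end Pool.Agent.H60.EGD
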