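import Pool.Agent.H40.EGD.Targets
import Pool.Agent.H93.EN.Targets2

/-!
# Measurability of the indicator function
-/

set_option autoImplicit false

namespace Pool.Agent.H60.EGD

open MeasureTheory Set Metric Filter Topology
open Pool.Agent.H93.BL hiding T_SC
open Pool.Agent.H93.EN (T_HC)
open Pool.Agent.H40.EGD

theorem FXM (hMIO : T_MIO) (hHC : T_HC) (hNXU : T_NXU) : T_FXM := by
  classical
  intro ι _ P X hX
  obtain ⟨K, hK⟩ : ∃ K : Set (ℂ × ℂ), K = {p | p.1 ∈ P.Ω ∧ ‖p.2‖ = 1} := ⟨_, rfl⟩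
  obtain ⟨H, hH⟩ : ∃ H : ι → Set (ℂ × ℂ), H = fun j => {p | p ∈ K ∧
      ∃ v : ℝ × ℝ, Nx P p.1 p.2 (j, v)} := ⟨_, rfl⟩
  have hKm : MeasurableSet K := by
    rw [hK]
    exact (P.isOpen.measurableSet.preimage measurable_fst).inter
      (measurableSet_eq_fun (measurable_norm.comp measurable_snd) measurable_const)
  -- continuity of the first hit
  have key : ∀ (j : ι) (p : ℂ × ℂ) (v : ℝ × ℝ), p ∈ K → Nx P p.1 p.2 (j, v) → ∀ ε > (0 : ℝ),
      ∃ η > (0 : ℝ), ∀ p' ∈ K, dist p' p < η → ∃ v' : ℝ × ℝ, Nx P p'.1 p'.2 (j, v') ∧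
        dist v' v < ε := by
    intro j p v hp hN ε hε
    rw [hK] at hp
    obtain ⟨h1, ⟨t, ht, h2, h3⟩, h4⟩ := hN
    obtain ⟨η, hη, h5⟩ := hHC ι P p.1 p.2 (j, v) t hp.1 hp.2 h1 ht h2 h3 h4 ε hε
    refine ⟨η, hη, fun p' hp' hd => ?_⟩
    rw [hK] at hp'
    obtain ⟨s, φ, t', h6, h7, h8, h9, h10, h11, h12⟩ := h5 p'.1 p'.2
      ((le_max_left _ _).trans_lt hd) hp'.2 ((le_max_right _ _).trans_lt hd)
    refine ⟨(s, φ), ⟨h9, ⟨t', h8, h10, h11⟩, h12⟩, ?_⟩
    have h13 : dist (s, φ).1 v.1 < ε := by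
      rw [Real.dist_eq]
      exact h6
    have h14 : dist (s, φ).2 v.2 < ε := by
      rw [Real.dist_eq]
      exact h7
    exact max_lt h13 h14
  have hHm : ∀ j, MeasurableSet (H j) := by
    intro j
    have h1 : H j = K ∩ {p | ∀ᶠ p' in 𝓝 p, p' ∈ K → p' ∈ H j} := by
      ext p
      constructor
      · intro hp
        have hp' := hp
        rw [hH] at hp'
        obtain ⟨h2, v, h3⟩ := hp'
        refine ⟨h2, ?_⟩
        obtain ⟨η, hη, h4⟩ := key j p v h2 h3 1 one_pos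
        rw [mem_setOf_eq, Metric.eventually_nhds_iff]
        refine ⟨η, hη, fun p' hd hp'K => ?_⟩
        obtain ⟨v', h5, -⟩ := h4 p' hp'K hd
        rw [hH]
        exact ⟨hp'K, v', h5⟩
      · rintro ⟨h2, h3⟩
        exact h3.self_of_nhds h2
    rw [h1]
    exact hKm.inter isOpen_setOf_eventually_nhds.measurableSet
  obtain ⟨g, hg⟩ : ∃ g : ι → ℂ × ℂ → ℝ × ℝ, ∀ j, ∀ p ∈ H j, Nx P p.1 p.2 (j, g j p) := by
    have h1 : ∀ (j : ι) (p : ℂ × ℂ), ∃ v : ℝ × ℝ, p ∈ H j → Nx P p.1 p.2 (j, v) := by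
      intro j p
      by_cases h : p ∈ H j
      · have h' := h
        rw [hH] at h'
        obtain ⟨-, v, hv⟩ := h'
        exact ⟨v, fun _ => hv⟩
      · exact ⟨0, fun h' => absurd h' h⟩
    choose g hg using h1
    exact ⟨g, hg⟩
  have hHK : ∀ j, ∀ p ∈ H j, p ∈ K := by
    intro j p hp
    rw [hH] at hp
    exact hp.1
  have hn : ∀ p ∈ K, ‖p.2‖ = 1 := by
    intro p hp
    rw [hK] at hp
    exact hp.2
  have hcont : ∀ j, ContinuousOn (g j) (H j) := by
    intro j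
    rw [Metric.continuousOn_iff]
    intro b hb ε hε
    obtain ⟨η, hη, h1⟩ := key j b (g j b) (hHK j b hb) (hg j b hb) ε hε
    refine ⟨η, hη, fun a ha hab => ?_⟩
    obtain ⟨v', h2, h3⟩ := h1 a (hHK j a ha) hab
    have h4 := (hNXU ι P a.1 a.2 (j, v') (j, g j a) (hn a (hHK j a ha))).1 h2 (hg j a ha)
    have h5 : v' = g j a := congrArg Prod.snd h4
    rw [← h5]
    exact h3
  obtain ⟨A, hA⟩ : ∃ A : Set (ℂ × ℂ), A = ⋃ j, (H j ∩
      ((H j).piecewise (g j) (fun _ => 0)) ⁻¹' {v : ℝ × ℝ | Io P X (j, v)}) := ⟨_, rfl⟩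
  have hAm : MeasurableSet A := by
    rw [hA]
    refine MeasurableSet.iUnion fun j => (hHm j).inter ?_
    exact (ContinuousOn.measurable_piecewise (hcont j) continuousOn_const (hHm j))
      (hMIO ι P X hX j)
  have hFX : Function.uncurry (FX P X) = fun p => if p ∈ A then 1 else 0 := by
    funext p
    have hiff : (p.1 ∈ P.Ω ∧ ‖p.2‖ = 1 ∧ ∃ z, Nx P p.1 p.2 z ∧ Io P X z) ↔ p ∈ A := by
      rw [hA, mem_iUnion]
      constructor
      · rintro ⟨h1, h2, ⟨j, v⟩, h3, h4⟩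
        have hpK : p ∈ K := by
          rw [hK]
          exact ⟨h1, h2⟩
        have hpH : p ∈ H j := by
          rw [hH]
          exact ⟨hpK, v, h3⟩
        refine ⟨j, hpH, ?_⟩
        rw [mem_preimage, piecewise_eq_of_mem _ _ _ hpH]
        have h5 := (hNXU ι P p.1 p.2 (j, v) (j, g j p) h2).1 h3 (hg j p hpH)
        have h6 : v = g j p := congrArg Prod.snd h5
        rw [← h6]
        exact h4
      · rintro ⟨j, hpH, h4⟩
        rw [mem_preimage, piecewise_eq_of_mem _ _ _ hpH] at h4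
        have hpK := hHK j p hpH
        rw [hK] at hpK
        exact ⟨hpK.1, hpK.2, (j, g j p), hg j p hpH, h4⟩
    have h1 : Function.uncurry (FX P X) p = FX P X p.1 p.2 := rfl
    rw [h1]
    unfold FX
    by_cases h : p ∈ A
    · rw [if_pos (hiff.2 h), if_pos h]
    · rw [if_neg (fun h' => h (hiff.1 h')), if_neg h]
  rw [hFX]
  exact Measurable.ite hAm measurable_const measurable_const

end Pool.Agent.H60.EGD
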