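import Pool.Agent.H40.EGD.Targets

/-!
# Sets of directions which contain almost all directions of a half circle
-/

set_option autoImplicit false

namespace Pool.Agent.H60.EGD

open MeasureTheory Set Metric Filter Topology
open Pool.Agent.H93.EN (rf)
open Pool.Agent.H40.EGD

/-- the cosine is positive exactly on translates of `(-π/2, π/2)` -/
theorem cos_pos_shift {x : ℝ} (hx : 0 < Real.cos x) :
    ∃ k : ℤ, x - k * (2 * Real.pi) ∈ Ioo (-(Real.pi / 2)) (Real.pi / 2) := by
  have hpi := Real.pi_pos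
  obtain ⟨k, hk⟩ := (existsUnique_sub_zsmul_mem_Ico Real.two_pi_pos x
    (-(Real.pi / 2))).exists
  rw [zsmul_eq_mul] at hk
  refine ⟨k, ?_⟩
  have hc : 0 < Real.cos (x - k * (2 * Real.pi)) := by
    rw [Real.cos_sub_int_mul_two_pi]
    exact hx
  have h1 : x - k * (2 * Real.pi) < Real.pi / 2 := by
    by_contra h
    have h2 : Real.cos (x - k * (2 * Real.pi)) ≤ 0 :=
      Real.cos_nonpos_of_pi_div_two_le_of_le (not_lt.1 h) (by linarith [hk.2])
    linarith
  refine ⟨lt_of_le_of_ne hk.1 fun h => ?_, h1⟩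
  rw [← h, Real.cos_neg, Real.cos_pi_div_two] at hc
  exact lt_irrefl _ hc

theorem HLG : T_HLG := by
  intro u W hu h1 h2
  obtain ⟨β, hβ⟩ : ∃ β : ℝ, Complex.I * u = Complex.exp ((β : ℂ) * Complex.I) := by
    refine ⟨Complex.arg (Complex.I * u), ?_⟩
    have h3 := Complex.norm_mul_exp_arg_mul_I (Complex.I * u)
    rw [norm_mul, Complex.norm_I, hu, one_mul, Complex.ofReal_one, one_mul] at h3
    exact h3.symm
  -- the good half circle
  have hG : ∀ᵐ θ : ℝ, 0 < Real.cos (θ - β) → Complex.exp ((θ : ℂ) * Complex.I) ∈ W := by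
    have h3 : ∀ k : ℤ, ∀ᵐ θ : ℝ, θ - (β + k * (2 * Real.pi)) ∈
        Ioo (-(Real.pi / 2)) (Real.pi / 2) → Complex.exp ((θ : ℂ) * Complex.I) ∈ W := by
      intro k
      have h4 := (measurePreserving_sub_right volume
        (β + k * (2 * Real.pi))).quasiMeasurePreserving.ae h1
      filter_upwards [h4] with θ hθ hmem
      have h5 := hθ hmem
      have h6 : Complex.I * u * Complex.exp (((θ - (β + k * (2 * Real.pi)) : ℝ) : ℂ) * Complex.I) =
          Complex.exp ((θ : ℂ) * Complex.I) := by
        rw [hβ, ← Complex.exp_add]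
        rw [Complex.exp_eq_exp_iff_exists_int]
        refine ⟨-k, ?_⟩
        push_cast
        ring
      rw [h6] at h5
      exact h5
    filter_upwards [ae_all_iff.2 h3] with θ hθ hc
    obtain ⟨k, hk⟩ := cos_pos_shift hc
    refine hθ k ?_
    have : θ - (β + k * (2 * Real.pi)) = θ - β - k * (2 * Real.pi) := by ring
    rw [this]
    exact hk
  have hG2 := (Measure.measurePreserving_sub_left volume
    (2 * β + Real.pi)).quasiMeasurePreserving.ae hG
  have hnull : ∀ᵐ θ : ℝ, θ ∉ Set.range (fun k : ℤ => β + (2 * (k : ℝ) + 1) * Real.pi / 2) :=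
    (Set.countable_range _).ae_notMem volume
  filter_upwards [hG, hG2, h2, hnull] with θ ha hb hc hd
  rcases lt_trichotomy (Real.cos (θ - β)) 0 with h | h | h
  · rw [hc]
    have h3 : 0 < Real.cos (2 * β + Real.pi - θ - β) := by
      have : 2 * β + Real.pi - θ - β = Real.pi - (θ - β) := by ring
      rw [this, Real.cos_pi_sub]
      linarith
    have h4 := hb h3
    have h5 : rf u (Complex.exp ((θ : ℂ) * Complex.I)) =
        Complex.exp (((2 * β + Real.pi - θ : ℝ) : ℂ) * Complex.I) := by
      unfold rf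
      have hu2 : u = -(Complex.I * Complex.exp ((β : ℂ) * Complex.I)) := by
        rw [← hβ, ← mul_assoc, Complex.I_mul_I]
        ring
      rw [← Complex.exp_conj, map_mul, Complex.conj_ofReal, Complex.conj_I, hu2, neg_sq, mul_pow,
        Complex.I_sq, ← Complex.exp_nat_mul]
      have h6 : (((2 * β + Real.pi - θ : ℝ) : ℂ) * Complex.I) =
          Real.pi * Complex.I + (((2 : ℕ) : ℂ) * ((β : ℂ) * Complex.I) +
            (θ : ℂ) * -Complex.I) := by
        push_cast
        ring
      rw [h6, Complex.exp_add, Complex.exp_pi_mul_I, Complex.exp_add]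
      ring
    rw [h5]
    exact h4
  · exfalso
    obtain ⟨k, hk⟩ := Real.cos_eq_zero_iff.1 h
    exact hd ⟨k, by simp only; linarith⟩
  · exact ha h

end Pool.Agent.H60.EGD
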