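import Pool.Agent.H40.EGD.Targets
import Pool.Agent.H93.EN.Targets2

/-!
# Preimages of measurable families under the billiard map are measurable
-/

set_option autoImplicit false

namespace Pool.Agent.H60.EGD

open MeasureTheory Set Metric Filter Topology
open Pool.Agent.H93.BL hiding T_SC
open Pool.Agent.H93.EN (T_SC)
open Pool.Agent.H40.EGD

theorem PRE (hM2 : T_M2) (hSC : T_SC) (hB3 : T_B3) : T_PRE := by
  classical
  intro ι _ P B hB i
  have hC : ∀ j, IsOpen {z : ℝ × ℝ | ∃ z', P.Step (i, z) (j, z')} := fun j => (hM2 ι P i j).1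
  obtain ⟨g, hg⟩ : ∃ g : ι → ℝ × ℝ → ℝ × ℝ, ∀ j, ∀ z ∈ {z : ℝ × ℝ | ∃ z', P.Step (i, z) (j, z')},
      P.Step (i, z) (j, g j z) := by
    have h1 : ∀ (j : ι) (z : ℝ × ℝ), ∃ z' : ℝ × ℝ,
        z ∈ {z : ℝ × ℝ | ∃ z', P.Step (i, z) (j, z')} → P.Step (i, z) (j, z') := by
      intro j z
      by_cases h : ∃ z', P.Step (i, z) (j, z')
      · obtain ⟨z', hz'⟩ := h
        exact ⟨z', fun _ => hz'⟩
      · exact ⟨0, fun h' => absurd h' h⟩
    choose g hg using h1
    exact ⟨g, hg⟩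
  have hcont : ∀ j, ContinuousOn (g j) {z : ℝ × ℝ | ∃ z', P.Step (i, z) (j, z')} := by
    intro j
    rw [Metric.continuousOn_iff]
    intro b hb ε hε
    obtain ⟨η, hη, h1⟩ := hSC ι P (i, b) (j, g j b) (hg j b hb) ε hε
    refine ⟨η, hη, fun a ha hab => ?_⟩
    have h2 : |a.1 - b.1| < η := by
      rw [← Real.dist_eq]
      exact (le_max_left _ _).trans_lt hab
    have h3 : |a.2 - b.2| < η := by
      rw [← Real.dist_eq]
      exact (le_max_right _ _).trans_lt hab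
    obtain ⟨z₁, h4, -, h6, h7⟩ := h1 a.1 a.2 h2 h3
    have h8 : z₁ = (j, g j a) := (hB3 ι P (i, a) z₁ (j, g j a)).1 h4 (hg j a ha)
    rw [h8] at h6 h7
    have h9 : dist (g j a).1 (g j b).1 < ε := by
      rw [Real.dist_eq]
      exact h6
    have h10 : dist (g j a).2 (g j b).2 < ε := by
      rw [Real.dist_eq]
      exact h7
    exact max_lt h9 h10
  have hset : {z : ℝ × ℝ | ∃ z', P.Step (i, z) z' ∧ z'.2 ∈ B z'.1} =
      ⋃ j, ({z : ℝ × ℝ | ∃ z', P.Step (i, z) (j, z')} ∩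
        (({z : ℝ × ℝ | ∃ z', P.Step (i, z) (j, z')}).piecewise (g j) (fun _ => 0)) ⁻¹' B j) := by
    ext z
    rw [mem_iUnion]
    constructor
    · rintro ⟨⟨j, z'⟩, h1, h2⟩
      have hz : z ∈ {z : ℝ × ℝ | ∃ z', P.Step (i, z) (j, z')} := ⟨z', h1⟩
      refine ⟨j, hz, ?_⟩
      rw [mem_preimage, piecewise_eq_of_mem _ _ _ hz]
      have h3 := (hB3 ι P (i, z) (j, z') (j, g j z)).1 h1 (hg j z hz)
      have h4 : z' = g j z := congrArg Prod.snd h3
      rw [← h4]
      exact h2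
    · rintro ⟨j, hz, h2⟩
      rw [mem_preimage, piecewise_eq_of_mem _ _ _ hz] at h2
      exact ⟨(j, g j z), hg j z hz, h2⟩
  rw [hset]
  refine MeasurableSet.iUnion fun j => ?_
  refine (hC j).measurableSet.inter ?_
  exact (ContinuousOn.measurable_piecewise (hcont j) continuousOn_const
    (hC j).measurableSet) (hB j)

end Pool.Agent.H60.EGD
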